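import Mathlib
import Pool.Agent.W760.GraphMain

/-!
All continuous solutions `f : ℝ → ℝ` of `f (x + f x) = f x + f (f x)`.
-/

namespace Pool.Agent.Results.MP_12983e_an.Classification

open Pool.Agent.W760.GraphAdd

/-- A function `f : ℝ → ℝ` is continuous and satisfies `f (x + f x) = f x + f (f x)` for all `x`
if and only if either there are `α, β ≥ 0` with `f x = α x` for `x ≥ 0` and `f x = β x` for
`x < 0`, or `f x = a x` for all `x` with some `a < 0`. -/
theorem result (f : ℝ → ℝ) :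
    (Continuous f ∧ ∀ x, f (x + f x) = f x + f (f x)) ↔
      ((∃ α β : ℝ, 0 ≤ α ∧ 0 ≤ β ∧ ∀ x, f x = if 0 ≤ x then α * x else β * x) ∨
        (∃ a : ℝ, a < 0 ∧ ∀ x, f x = a * x)) := by
  constructor
  · rintro ⟨hc, he⟩
    exact Sol.classify ⟨hc, he⟩
  · rintro (⟨α, β, hα, hβ, h⟩ | ⟨a, -, h⟩)
    · have := sol_of_pw hα hβ h
      exact ⟨this.hf, this.heq⟩
    · have := sol_of_linear h
      exact ⟨this.hf, this.heq⟩

end Pool.Agent.Results.MP_12983e_an.Classification
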